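import Pool.Agent.Y33.SM.Stm
import Pool.Agent.TH54.BU.Close
import Pool.Agent.TH54.BU.FamLS

/-!
# Project SM (helper33): minimal elements, lines of letters versus relator lines (job SM-OVS)
-/

set_option autoImplicit false

namespace Pool.Agent.Y688.SM

open Pool.Agent.TH54.BU Pool.Agent.Y33.SM

section basic

variable {G : Type} [Group G] {w : GH G} {κ n : ℕ} {F : GH G} {L : LS F 1100 234003 2}
  {X : Set G} {M : Subgroup G}

theorem kpos (c : Ctx w κ n L X M) : 1000 ≤ κ := by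
  have := c.hκ
  have h2 : 1000 * (w.D + 1) = 1000 * w.D + 1000 := by ring
  omega

theorem F_up (c : Ctx w κ n L X M) (g : G) : κ * F.len g ≤ w.len g + κ - 1 := by
  rw [c.resc g]
  exact Nat.mul_div_le _ _

theorem F_lo (c : Ctx w κ n L X M) (g : G) : w.len g ≤ κ * F.len g := by
  have hk := kpos c
  rw [c.resc g]
  have h := Nat.div_add_mod (w.len g + κ - 1) κ
  have h2 := Nat.mod_lt (w.len g + κ - 1) (by omega : 0 < κ)
  omega

theorem s_le (L : LS F 1100 234003 2) (i : L.ι) (u p q : G) :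
    (L.s i u p q).natAbs ≤ 2 * L.D i u p q := L.wf_lin_z i _

theorem str_F {h : G} (c : Ctx w κ n L X M) (hs : Str w h) (k : ℕ) :
    F.len (h ^ k) = (k + κ - 1) / κ := by
  rw [c.resc, hs k]

theorem str_inf {h : G} (hs : Str w h) : ¬ IsOfFinOrder h := by
  intro hf
  obtain ⟨k, hk, h1⟩ := hf.exists_pow_eq_one
  have := hs k
  rw [h1, w.len_one] at this
  omega

theorem str_sup {h : G} (c : Ctx w κ n L X M) (hs : Str w h) : F.Sup 100 h := by
  intro a b
  have hk := kpos c
  have h1 := F_up c (h ^ a)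
  have h2 := F_up c (h ^ b)
  have h3 := F_lo c (h ^ (a + b))
  rw [hs] at h1 h2 h3
  by_contra hcon
  push Not at hcon
  have h4 : κ * (F.len (h ^ (a + b)) + 101) ≤ κ * (F.len (h ^ a) + F.len (h ^ b)) :=
    Nat.mul_le_mul_left _ (by omega)
  rw [mul_add, mul_add] at h4
  omega

end basic

theorem t0 : S_MIN := by
  intro G _ w κ n F L X M c t g ht hmin i u
  have hk := kpos c
  have hn := c.hn
  by_contra hcon
  push Not at hcon
  have h1 : 2 * (2 * 1100 + (t + 2) + 1) ≤ n := by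
    have : (10 : ℕ) ^ 6 = 1000000 := by norm_num
    have : (10 : ℕ) ^ 12 = 1000000000000 := by norm_num
    omega
  obtain ⟨k, hkk⟩ := L.shorten (t + 2) (n := n) (i := i) (u := u) (p := 1) (q := g) h1 (by
    push_cast
    omega)
  rw [F.d_one, F.d_one] at hkk
  have hm := hmin _ (c.fil.rot i u k)
  have h2 := F_up c g
  have h3 := F_lo c (L.rt i u (n * k) * g)
  have h4 : κ * (F.len (L.rt i u (n * k) * g) + (t + 2) + 1) ≤ κ * F.len g :=
    Nat.mul_le_mul_left _ (by omega)
  rw [mul_add, mul_add, mul_add] at h4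
  have h5 : κ * t = t * κ := mul_comm _ _
  omega

theorem t1 : S_OV := by
  intro G _ w κ n F L X M c h hs i u g p q
  have hk := kpos c
  by_contra hcon
  push Not at hcon
  have hinf := str_inf hs
  have hF1 : F.len h = 1 := by
    have := str_F c hs 1
    rw [pow_one] at this
    rw [this, Nat.add_sub_cancel_left]
    exact Nat.div_self (by omega)
  have hsup := str_sup c hs
  obtain ⟨κ', h1, h2, h3, h4⟩ := GH.exists_pax F (x := h) (c0 := 100) (L1 := 5) hinf hsup (by omega)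
  rw [c.FD] at h3 h4
  obtain ⟨T, hT⟩ := c.stab
  have hX := c.mem i
  have hx5 : F.len (L.x i) ≤ 5 := by
    have e1 := F_up c (L.x i)
    have e2 := c.hi _ hX
    by_contra h6
    push Not at h6
    have h7 : κ * 6 ≤ κ * F.len (L.x i) := Nat.mul_le_mul_left _ h6
    omega
  have hcomm : L.x i * (u⁻¹ * g * h * (u⁻¹ * g)⁻¹) = u⁻¹ * g * h * (u⁻¹ * g)⁻¹ * L.x i := by
    refine Fls.ovl F (K := 500) (B := 12003) (T := T) (by rw [c.FD]) hT c.acy (x := L.x i) (y := h)
      (u := u⁻¹ * g) (c := 1100) (L1 := 5) hx5 (by omega) (κ := L.κ i) (L.proj i)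
      (fun a b p hp => h4 a b p hp) q p ?_
    rw [c.FD]
    have e : L.D i u (g * h ^ p) (g * h ^ q) =
        F.len (L.x i ^ (L.κ i (u⁻¹ * g * h ^ q) - L.κ i (u⁻¹ * g * h ^ p))) := by
      unfold LS.D LS.s
      rw [mul_assoc, mul_assoc]
    rw [e] at hcon
    exact hcon
  obtain ⟨j, hj⟩ := (c.prim _ hX).2 _ hcomm.symm
  have hj' : L.x i ^ j = u⁻¹ * g * h * (u⁻¹ * g)⁻¹ := hj
  obtain ⟨z, hz⟩ : ∃ z, z = u⁻¹ * g := ⟨_, rfl⟩
  rw [← hz] at hj'
  have hj0 : j ≠ 0 := by
    rintro rfl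
    rw [zpow_zero] at hj'
    have : h = 1 := by
      have h5 : h = z⁻¹ * (z * h * z⁻¹) * z := by group
      rw [← hj'] at h5
      rw [h5]
      group
    rw [this] at hinf
    exact hinf IsOfFinOrder.one
  have hxD : 4 * w.D + 4 ≤ w.len (L.x i) := by
    have := c.lo _ hX
    have := c.hκ
    have h2 : 1000 * (w.D + 1) = 1000 * w.D + 1000 := by ring
    omega
  obtain ⟨hsx, -⟩ := w.sup_of_cmin (c.cmin _ hX) hxD
  have key : ∀ N : ℕ, N * 998 ≤ N + 2 * w.len z := by
    intro N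
    have e1 : w.len (L.x i ^ (j * N)) ≤ N + 2 * w.len z := by
      rw [zpow_mul, hj', zpow_natCast]
      have e2 : (z * h * z⁻¹) ^ N = z * h ^ N * z⁻¹ := by
        rw [conj_pow]
      rw [e2]
      have e3 := w.len_mul (z * h ^ N) z⁻¹
      have e4 := w.len_mul z (h ^ N)
      rw [w.len_inv] at e3
      rw [hs N] at e4
      omega
    have e2 : w.len (L.x i ^ (j * N)) = w.len (L.x i ^ (j.natAbs * N)) := by
      rw [GH.len_zpow w (L.x i) (j * N), Int.natAbs_mul, Int.natAbs_natCast]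
    rw [e2] at e1
    have e3 := Fls.sup_pow w hsx (j.natAbs * N)
    have e4 : N ≤ j.natAbs * N := Nat.le_mul_of_pos_left _ (Int.natAbs_pos.2 hj0)
    have e5 := c.lo _ hX
    have e6 := c.hκ
    have e7 : (j.natAbs * N) * (998 + 2 * w.D) ≤ (j.natAbs * N) * w.len (L.x i) := by
      apply Nat.mul_le_mul_left
      have h2 : 1000 * (w.D + 1) = 1000 * w.D + 1000 := by ring
      omega
    rw [mul_add] at e7
    have e8 : N * 998 ≤ (j.natAbs * N) * 998 := Nat.mul_le_mul_right _ e4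
    linarith
  have := key (w.len z + 1)
  omega

theorem t2 (hOV : S_OV) : S_STR := by
  intro G _ w κ n F L X M _ c w' hQ
  have hk := kpos c
  have hn := c.hn
  have hn' : 1000000000000 ≤ n := by
    have : (10 : ℕ) ^ 12 = 1000000000000 := by norm_num
    omega
  have hthr : L.thr = 472408 := by
    unfold LS.thr
    norm_num
  have hlong : ∀ m ∈ M, m ≠ 1 → n * κ ≤ 10 * w.len m := by
    intro m hm hm1
    obtain ⟨i, u, h1⟩ := c.fil.gr m hm hm1 1
    rw [mul_one, hthr, Int.abs_eq_natAbs] at h1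
    have h2 := s_le L i u 1 m
    have h3 : 1100 < L.D i u 1 m := by omega
    have h4 := L.wf_proj_s i u 1 m h3
    have hd : F.d 1 m = F.len m := F.d_one m
    have h5 := F_up c m
    have h6 : n ≤ 2 * F.len m + 6000000 := by omega
    have h7 : κ * n ≤ κ * (2 * F.len m + 6000000) := Nat.mul_le_mul_left _ h6
    have h8 : κ * 1000000000000 ≤ κ * n := Nat.mul_le_mul_left _ hn'
    rw [mul_add] at h7
    have h9 : κ * (2 * F.len m) = 2 * (κ * F.len m) := by ring
    have h10 : n * κ = κ * n := mul_comm _ _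
    omega
  have hlift : ∀ g : G, ∃ m ∈ M, w.len (m * g) = w'.len (g : G ⧸ M) ∧
      ∀ m' ∈ M, w.len (m * g) ≤ w.len (m' * (m * g)) + 0 * κ := by
    intro g
    obtain ⟨g', h1, h2⟩ := hQ.lift (g : G ⧸ M)
    have h3 : g' * g⁻¹ ∈ M := by
      rw [QuotientGroup.eq] at h1
      have h4 : g'⁻¹ * g ∈ M := h1
      have h5 := M.inv_mem h4
      have h6 := c.fil.normal.conj_mem _ h5 g
      have e : g * (g'⁻¹ * g)⁻¹ * g⁻¹ = g' * g⁻¹ := by group
      rwa [e] at h6
    refine ⟨g' * g⁻¹, h3, ?_, ?_⟩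
    · rw [inv_mul_cancel_right, h2]
    · intro m' hm'
      rw [inv_mul_cancel_right, h2]
      have h4 := hQ.le (m' * g')
      have h5 : ((m' * g' : G) : G ⧸ M) = (g : G ⧸ M) := by
        rw [QuotientGroup.mk_mul, (QuotientGroup.eq_one_iff m').2 hm', one_mul, h1]
      rw [h5] at h4
      omega
  refine ⟨?_, hlong, ?_⟩
  · intro h hs k
    obtain ⟨m, hm, h1, h2⟩ := hlift (h ^ k)
    have e0 : ((h : G ⧸ M) ^ k) = ((h ^ k : G) : G ⧸ M) := (QuotientGroup.mk_pow M h k).symm
    rw [e0, ← h1]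
    by_cases hm1 : m = 1
    · rw [hm1, one_mul, hs k]
    exfalso
    obtain ⟨i, u, h3⟩ := c.fil.gr m hm hm1 (h ^ k)
    rw [hthr] at h3
    have h4 := t0 G w κ n F L X M c 0 (m * h ^ k) (by positivity) h2 i u
    have h5 := hOV G w κ n F L X M c h hs i u 1 0 k
    rw [zpow_zero, mul_one, one_mul, zpow_natCast] at h5
    have h6 := s_le L i u 1 (h ^ k)
    have h7 := L.wf_s_add i u 1 (h ^ k) (m * h ^ k)
    rw [Int.abs_eq_natAbs] at h3 h4
    omega
  · intro g hg
    obtain ⟨m, hm, h1, h2⟩ := hlift g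
    by_cases hm1 : m = 1
    · rw [← h1, hm1, one_mul]
    exfalso
    have h3 := hlong m hm hm1
    have h4 := hQ.le g
    have h5 := w.len_mul (m * g) g⁻¹
    rw [mul_inv_cancel_right, w.len_inv] at h5
    have h6 : 0 < n * κ := Nat.mul_pos (by omega) (by omega)
    omega

theorem t2' : S_STR := t2 t1

end Pool.Agent.Y688.SM
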